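import Pool.Agent.H436.RG.Forms

set_option autoImplicit false

/-!
# Record prime gaps around places where arbitrary linear forms have prescribed powers of large primes as divisors

Let `f(x) = log x (log₂ x)² log₄ x / (log₃ x)²` (iterated natural logarithms), the order of the largest gaps between
consecutive primes known from the starting files (`MP_3bc45c_nt.RecordGaps`), and `A ≥ 0`, `0 < ε ≤ 1`, `c < ε`. We show
that there is `κ > 0` such that for every large `M` and EVERY finite set `T` of triples `(a, b, k)` of integers with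
`a ≠ 0`, `|a| ≤ M^A`, `k ≥ 1` (and `b` arbitrary) for which the sum of all `k` is at most `c log M / log log M`, some
`n` in the short interval `(M, M + M^ε]` has no primes within `κ f(M)`, while each of the numbers `a n + b` is divisible
by `q^k` for a prime `q > log M`, and different triples have different primes `q`.

Proof. The sum of the `k` being at most `c log M / log log M`, the triples can be given different primes `q` in
`(2 (A + 1) log M, 16 (A + 1) log M]` with `q ∤ a` (Hall's theorem: `a` has at most `A log M / log log M` prime factors of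
this size). The product `d` of all `q^k` is at most `M^(ε (1 - δ))`, and the sum of the `1 / q` is `O(1 / log log M)`, so
that the modulus `d` satisfies the condition of `MP_3bc45c_nt.RecordGapsAtPrescribedPlaces` and `φ(d) / d` is bounded
below.
-/

namespace Pool.Agent.Results.MP_7b323f_nt.LinearFormsInRecordGaps

/-- The record scale `f(x) = log x (log₂ x)² log₄ x / (log₃ x)²` (iterated natural logarithms). -/
noncomputable def f (x : ℝ) : ℝ :=
  Real.log x * (Real.log (Real.log x)) ^ 2 * Real.log (Real.log (Real.log (Real.log x))) /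
    (Real.log (Real.log (Real.log x))) ^ 2

/-- For `A ≥ 0`, `0 < ε ≤ 1` and `c < ε` there are `κ > 0` and `M₀` such that for all `M ≥ M₀` and for every finite set
`T` of triples `(a, b, k)` with `a ≠ 0`, `|a| ≤ M^A`, `k ≥ 1` and with the sum of all `k` at most
`c log M / log log M` there is an integer `n` with `M < n ≤ M + M^ε` and with `|p - n| > κ f(M)` for every prime `p`, and
there are different primes `q(a, b, k) > log M` for the triples in `T` such that `q(a, b, k)^k` divides `a n + b`. -/
theorem result (A ε c : ℝ) (hA : 0 ≤ A) (hε : 0 < ε) (hε1 : ε ≤ 1) (hc : c < ε) :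
    ∃ κ : ℝ, 0 < κ ∧ ∃ M₀ : ℕ, ∀ M : ℕ, M₀ ≤ M → ∀ T : Finset (ℤ × ℤ × ℕ),
      (∀ t ∈ T, t.1 ≠ 0 ∧ |(t.1 : ℝ)| ≤ (M : ℝ) ^ A ∧ 1 ≤ t.2.2) →
      ((∑ t ∈ T, t.2.2 : ℕ) : ℝ) ≤ c * Real.log M / Real.log (Real.log M) →
      ∃ n : ℕ, M < n ∧ (n : ℝ) ≤ M + (M : ℝ) ^ ε ∧
        (∀ p : ℕ, p.Prime → κ * f M < |(p : ℝ) - n|) ∧
        ∃ q : ℤ × ℤ × ℕ → ℕ, Set.InjOn q T ∧ ∀ t ∈ T, (q t).Prime ∧ Real.log M < q t ∧
          (q t : ℤ) ^ t.2.2 ∣ t.1 * n + t.2.1 := by
  obtain ⟨κ, hκ, M₀, h⟩ := Pool.Agent.H436.RG.forms A ε c hA hε hε1 hc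
  refine ⟨κ, hκ, M₀, fun M hM T hT hTk => ?_⟩
  obtain ⟨n, h1, h2, h3, h4⟩ := h M hM T hT (by rwa [← mul_div_assoc])
  exact ⟨n, h1, h2, h4, h3⟩

end Pool.Agent.Results.MP_7b323f_nt.LinearFormsInRecordGaps
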